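import Pool.Agent.Work.MP_64a944_ag.N16

/-!
# A counterexample to Geometric Manin's Conjecture as posed

There is a smooth Fano variety `X` such that every translate `α + Nef₁(X)_ℤ` contains a class with
exactly one Manin component and a class with at least two Manin components.  So the number of
Manin components is not eventually equal to `|Br X|`, whatever this number is.

The variety `X` is the projective bundle of binary cubics over the Grassmannian of lines in `ℙ⁶`
(unordered triples of points on a line, dimension 13, Picard rank 2).  The second Manin component
consists of the curves that lift to the non-Galois triple cover on which one of the three points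
is marked; this cover is not breaking.
-/

namespace Pool.Agent.Results.MP_64a944_ag.Counterexample

open GMC

theorem result : ∃ (X : Var) (KX : (X.ι → ℂ) → X.K), X.Fano KX ∧
    ∀ α : Crv X →₀ ℝ, Integral α → Nef α → ∃ β₁ β₂ : Crv X →₀ ℝ, Integral β₁ ∧ Integral β₂ ∧
      Nef (β₁ - α) ∧ Nef (β₂ - α) ∧ (Manin X KX β₁).encard = 1 ∧ 2 ≤ (Manin X KX β₂).encard :=
  GMC.main

end Pool.Agent.Results.MP_64a944_ag.Counterexample
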