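import Pool.Agent.Work.MP_64a944_ag.G

/-!
# Rational curves on every smooth complete intersection of low degree (linear range)

Let `X ⊂ ℙ^n` be a smooth complete intersection of `c` forms of degrees `d l` with sum `D ≥ c + 3`
and `n ≥ 3 D - c - 2`.  For every `e` the affine cone over the space of degree `e` morphisms from
the projective line to `X` is irreducible (so nonempty), of the expected dimension
`e (n + 1 - D) + (n - c) + 1`.
-/

namespace Pool.Agent.Results.MP_64a944_ag.Irreducible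

open MvPolynomial

theorem result (n c e : ℕ) (d : Fin c → ℕ) (F : Fin c → MvPolynomial (Fin (n + 1)) ℂ)
    (hF : ∀ l, (F l).IsHomogeneous (d l)) (hd : ∀ l, 0 < d l)
    (hsm : ∀ x : Fin (n + 1) → ℂ, x ≠ 0 → (∀ l, eval x (F l) = 0) →
      LinearIndependent ℂ fun (l : Fin c) (i : Fin (n + 1)) => eval x (pderiv i (F l)))
    (hD : c + 3 ≤ ∑ l, d l) (hn : 3 * ∑ l, d l ≤ n + c + 2) :
    (vanishingIdeal ℂ (GM.Mor F e)).IsPrime ∧
      ringKrullDim (MvPolynomial (Fin (n + 1) × Fin (e + 1)) ℂ ⧸ vanishingIdeal ℂ (GM.Mor F e)) =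
        (e * (n + 1 - ∑ l, d l) + (n - c) + 1 : ℕ) := by
  obtain ⟨h1, -, h2⟩ := (GM.hyp_of hF (fun l => (hd l).ne') hsm).mor (by simpa using hD)
    (by simp only [Fintype.card_fin]; omega) e
  refine ⟨h1, GM.krullDim_eq h1 (h2.trans (congrArg _ ?_))⟩
  simp only [Fintype.card_fin]
  omega

end Pool.Agent.Results.MP_64a944_ag.Irreducible
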