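import Pool.Agent.Work.MP_64a944_ag.K

/-!
# One component, and it is a Manin component

Let `X ⊂ ℙ^n` be a smooth complete intersection of `c` forms of degrees `d l` with sum `D ≥ c + 3`
and `n ≥ 4 D - 2 c`, and let `e ≥ 2`.  The space of degree `e` morphisms from the projective line
to `X` is irreducible, and its generic member `f` does not factor through a generically finite
`Y → X` unless `Y → X` is dominant and birational.  Here `ξ` is a generic point of the space, with
values in a field `Ω`, the ring `B` is the coordinate ring of an affine chart of `Y` lying over the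
chart `x i₀ ≠ 0` and containing the image of the generic point of the line, `b i` is the pull-back
of `x i / x i₀`, and `ψ` is the lift of the curve to `Y` at the generic point of the line.
-/

namespace Pool.Agent.Results.MP_64a944_ag.ManinComponent

open MvPolynomial

theorem result (n c e : ℕ) (d : Fin c → ℕ) (F : Fin c → MvPolynomial (Fin (n + 1)) ℂ)
    (hF : ∀ l, (F l).IsHomogeneous (d l)) (hd : ∀ l, 0 < d l)
    (hsm : ∀ x : Fin (n + 1) → ℂ, x ≠ 0 → (∀ l, eval x (F l) = 0) →
      LinearIndependent ℂ fun (l : Fin c) (i : Fin (n + 1)) => eval x (pderiv i (F l)))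
    (hD : c + 3 ≤ ∑ l, d l) (hn : 4 * ∑ l, d l ≤ n + 2 * c) (he : 2 ≤ e) :
    (vanishingIdeal ℂ (GM.Mor F e)).IsPrime ∧
      ∀ (Ω : Type) [Field Ω] [Algebra ℂ Ω] (ξ : Fin (n + 1) × Fin (e + 1) → Ω),
        (∀ G, aeval ξ G = 0 ↔ G ∈ vanishingIdeal ℂ (GM.Mor F e)) →
        ∀ (B : Type) [CommRing B] [IsDomain B] [Algebra ℂ B] (b : Fin (n + 1) → B)
          (i₀ : Fin (n + 1)), b i₀ = 1 → (∀ l, aeval b (F l) = 0) →
          Algebra.IsAlgebraic (Algebra.adjoin ℂ (Set.range b)) B →
          ∀ ψ : B →ₐ[ℂ] RatFunc Ω,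
            (∀ i, ψ (b i) = GM.form (fun a => RatFunc.C (ξ a)) 1 RatFunc.X i /
              GM.form (fun a => RatFunc.C (ξ a)) 1 RatFunc.X i₀) →
            (∀ G : MvPolynomial (Fin (n + 1)) ℂ, aeval b G = 0 → ∀ x : Fin (n + 1) → ℂ,
              x i₀ = 1 → (∀ l, eval x (F l) = 0) → eval x G = 0) ∧
            ∀ y : B, ∃ G H : MvPolynomial (Fin (n + 1)) ℂ,
              aeval b H ≠ 0 ∧ y * aeval b H = aeval b G := by
  have h := GM.hyp_of hF (fun l => (hd l).ne') hsm
  obtain ⟨e, rfl⟩ : ∃ e', e = e' + 1 := ⟨e - 1, by omega⟩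
  refine ⟨(h.mor (by simpa using hD) (by simp only [Fintype.card_fin]; omega) _).1, ?_⟩
  intro Ω _ _ ξ hξ B _ _ _ b i₀ h1 h2 h3 ψ hψ
  obtain ⟨h4, h5⟩ := h.manin (by simpa using hD) (by simp only [Fintype.card_fin]; omega)
    (by omega) hξ h1 h2 h3 ψ hψ
  exact ⟨fun G hG x hx hx' => h4 x hx hx' G hG, h5⟩

end Pool.Agent.Results.MP_64a944_ag.ManinComponent
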